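import Mathlib
import Pool.Agent.E8helper99.CodegTable

/-!
# Codes of ordered graphs and the meaning of the kernel checks
-/

namespace Pool.Agent.E8helper99.Codeg

/-- The increasing map that skips `v`. -/
def sk (v i : ℕ) : ℕ := if i < v then i else i + 1

/-- The neighbourhood code `∑ i < m, f i * 2 ^ i`. -/
def nb (f : ℕ → Bool) : ℕ → ℕ
  | 0 => 0
  | m + 1 => nb f m + (f m).toNat * 2 ^ m

/-- The code of the ordered graph `b` on the vertices `0, ..., m - 1`. -/
def code (b : ℕ → ℕ → Bool) : ℕ → ℕ
  | 0 => 0
  | m + 1 => nb (fun i => b i m) m + code b m * 2 ^ m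

theorem strict_eq {α : Type} (n : ℕ) (f : ℕ → α) : strict n f = f n := by
  cases n <;> rfl

theorem allB_spec (f : ℕ → Bool) :
    ∀ d b, allB d b f = true → ∀ x, x < 2 ^ d → f (b + x) = true := by
  intro d
  induction d with
  | zero =>
    intro b h x hx
    have : x = 0 := by simpa using hx
    subst this
    simpa [allB] using h
  | succ d ih =>
    intro b h x hx
    simp only [allB, strict_eq, Bool.and_eq_true] at h
    by_cases hx' : x < 2 ^ d
    · exact ih b h.1 x hx'
    · push Not at hx'
      have h2 := ih (b + 2 ^ d) h.2 (x - 2 ^ d) (by rw [pow_succ] at hx; omega)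
      have : b + 2 ^ d + (x - 2 ^ d) = b + x := by omega
      rwa [this] at h2

theorem nb_lt (f : ℕ → Bool) (m : ℕ) : nb f m < 2 ^ m := by
  induction m with
  | zero => simp [nb]
  | succ m ih =>
    have : (f m).toNat ≤ 1 := Bool.toNat_le _
    have h2 : (f m).toNat * 2 ^ m ≤ 1 * 2 ^ m := Nat.mul_le_mul_right _ this
    rw [nb, pow_succ]
    omega

theorem nb_congr {f g : ℕ → Bool} {m : ℕ} (h : ∀ i, i < m → f i = g i) : nb f m = nb g m := by
  induction m with
  | zero => rfl
  | succ m ih =>
    rw [nb, nb, ih (fun i hi => h i (by omega)), h m (by omega)]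

theorem code_congr {b b' : ℕ → ℕ → Bool} {m : ℕ} (h : ∀ i j, i < j → j < m → b i j = b' i j) :
    code b m = code b' m := by
  induction m with
  | zero => rfl
  | succ m ih =>
    rw [code, code, ih (fun i j hi hj => h i j hi (by omega)),
      nb_congr (fun i hi => h i m hi (by omega))]

theorem code_mod (b : ℕ → ℕ → Bool) (m : ℕ) :
    code b (m + 1) % 2 ^ m = nb (fun i => b i m) m := by
  rw [code, Nat.add_mul_mod_self_right, Nat.mod_eq_of_lt (nb_lt _ _)]

theorem code_div (b : ℕ → ℕ → Bool) (m : ℕ) : code b (m + 1) / 2 ^ m = code b m := by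
  rw [code, Nat.add_mul_div_right _ _ (by positivity), Nat.div_eq_of_lt (nb_lt _ _), zero_add]

theorem add_mul_mod_two_pow (y s m p : ℕ) (h : p ≤ m) :
    (y + s * 2 ^ m) % 2 ^ p = y % 2 ^ p := by
  obtain ⟨k, rfl⟩ := Nat.exists_eq_add_of_le h
  rw [pow_add, ← mul_assoc, mul_right_comm, Nat.add_mul_mod_self_right]

theorem add_mul_div_two_pow (y s m p : ℕ) (h : p ≤ m) :
    (y + s * 2 ^ m) / 2 ^ p = y / 2 ^ p + s * 2 ^ (m - p) := by
  obtain ⟨k, rfl⟩ := Nat.exists_eq_add_of_le h
  rw [pow_add, ← mul_assoc, mul_right_comm, Nat.add_mul_div_right _ _ (by positivity),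
    Nat.add_sub_cancel_left]

theorem nb_bit (f : ℕ → Bool) {m i : ℕ} (h : i < m) : (nb f m / 2 ^ i) % 2 = (f i).toNat := by
  induction m with
  | zero => omega
  | succ m ih =>
    have ht : (f i).toNat ≤ 1 := Bool.toNat_le _
    rcases Nat.lt_succ_iff_lt_or_eq.1 h with h' | rfl
    · rw [nb, add_mul_div_two_pow _ _ _ _ h'.le]
      obtain ⟨k, hk⟩ : ∃ k, m - i = k + 1 := ⟨m - i - 1, by omega⟩
      rw [hk, pow_succ, ← mul_assoc, Nat.add_mul_mod_self_right]
      exact ih h'
    · rw [nb, Nat.add_mul_div_right _ _ (by positivity), Nat.div_eq_of_lt (nb_lt _ _), zero_add,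
        Nat.mod_eq_of_lt (by omega)]

theorem nb_mod (f : ℕ → Bool) {m M : ℕ} (h : m ≤ M) : nb f M % 2 ^ m = nb f m := by
  induction M with
  | zero =>
    have : m = 0 := by omega
    subst this
    rfl
  | succ M ih =>
    rcases Nat.le_succ_iff.1 h with h' | h'
    · rw [nb, add_mul_mod_two_pow _ _ _ _ h', ih h']
    · rw [h', Nat.mod_eq_of_lt (nb_lt _ _)]

theorem sk_of_lt {v i : ℕ} (h : i < v) : sk v i = i := by simp [sk, h]

theorem sk_of_le {v i : ℕ} (h : v ≤ i) : sk v i = i + 1 := by simp [sk, h]

theorem rem_nb (f : ℕ → Bool) {m v : ℕ} (h : v ≤ m) :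
    rem v (nb f (m + 1)) = nb (fun i => f (sk v i)) m := by
  induction m with
  | zero =>
    have : v = 0 := by omega
    subst this
    have := Bool.toNat_le (f 0)
    simp only [rem, nb, pow_zero, Nat.mod_one, zero_add, mul_one, pow_one]
    omega
  | succ m ih =>
    rcases Nat.le_succ_iff.1 h with h' | h'
    · have h1 := ih h'
      unfold rem at h1 ⊢
      rw [nb, add_mul_mod_two_pow _ _ _ _ (by omega), add_mul_div_two_pow _ _ _ _ (by omega),
        add_mul]
      rw [show nb (fun i => f (sk v i)) (m + 1) = nb (fun i => f (sk v i)) m +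
        (f (sk v m)).toNat * 2 ^ m from rfl, ← h1, sk_of_le h', mul_assoc, ← pow_add,
        show m + 1 - (v + 1) + v = m by omega]
      ring
    · rw [Nat.succ_eq_add_one] at h'
      subst h'
      unfold rem
      rw [nb_mod f (by omega), Nat.div_eq_of_lt (nb_lt _ _), zero_mul, add_zero]
      exact nb_congr (fun i hi => by rw [sk_of_lt hi])

theorem del_code (b : ℕ → ℕ → Bool) {m v : ℕ} (h : v ≤ m) :
    del v (m + 1) (code b (m + 1)) = code (fun i j => b (sk v i) (sk v j)) m := by
  induction m with
  | zero =>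
    have : v = 0 := by omega
    subst this
    simp [del, code, nb]
  | succ m ih =>
    rw [del, code_mod, code_div]
    rcases Nat.le_succ_iff.1 h with h' | h'
    · have hne : Nat.beq v (m + 1) = false := by
        rw [Bool.eq_false_iff, Ne, Nat.beq_eq]; omega
      rw [hne, cond_false, rem_nb _ h', ih h', Nat.add_sub_cancel]
      rw [show code (fun i j => b (sk v i) (sk v j)) (m + 1) =
        nb (fun i => b (sk v i) (sk v m)) m + code (fun i j => b (sk v i) (sk v j)) m * 2 ^ m
        from rfl, sk_of_le h']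
    · rw [Nat.succ_eq_add_one] at h'
      have he : Nat.beq v (m + 1) = true := by rw [Nat.beq_eq]; exact h'
      rw [he, cond_true]
      exact code_congr (fun i j hi hj => by rw [sk_of_lt (by omega), sk_of_lt (by omega)])

theorem insb_nb (g : ℕ → Bool) {m p : ℕ} (h : p ≤ m) :
    insb p (nb (fun i => g (sk p i)) m) (g p).toNat = nb g (m + 1) := by
  induction m with
  | zero =>
    have : p = 0 := by omega
    subst this
    simp [insb, nb]
  | succ m ih =>
    rcases Nat.le_succ_iff.1 h with h' | h'
    · have h1 := ih h'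
      unfold insb at h1 ⊢
      rw [show nb (fun i => g (sk p i)) (m + 1) = nb (fun i => g (sk p i)) m +
        (g (sk p m)).toNat * 2 ^ m from rfl, add_mul_mod_two_pow _ _ _ _ h',
        add_mul_div_two_pow _ _ _ _ h', sk_of_le h', add_mul,
        show nb g (m + 1 + 1) = nb g (m + 1) + (g (m + 1)).toNat * 2 ^ (m + 1) from rfl, ← h1,
        mul_assoc (g (m + 1)).toNat, ← pow_add, show m - p + (p + 1) = m + 1 by omega]
      ring
    · rw [Nat.succ_eq_add_one] at h'
      subst h'
      unfold insb
      rw [Nat.mod_eq_of_lt (nb_lt _ _), Nat.div_eq_of_lt (nb_lt _ _), zero_mul, add_zero,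
        show nb g (m + 1 + 1) = nb g (m + 1) + (g (m + 1)).toNat * 2 ^ (m + 1) from rfl]
      congr 1
      exact nb_congr (fun i hi => by rw [sk_of_lt hi])

theorem ins_code (b : ℕ → ℕ → Bool) (hb : ∀ i j, b i j = b j i) {m p M : ℕ} (h : p ≤ m)
    (hM : m ≤ M) :
    ins p m (code (fun i j => b (sk p i) (sk p j)) m) (nb (fun i => b (sk p i) p) M) =
      code b (m + 1) := by
  induction m with
  | zero => simp [ins, code, nb]
  | succ m ih =>
    rw [ins, code_mod, code_div]
    rcases Nat.le_succ_iff.1 h with h' | h'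
    · have hne : Nat.beq p (m + 1) = false := by
        rw [Bool.eq_false_iff, Ne, Nat.beq_eq]; omega
      rw [hne, cond_false, ih h' (by omega), nb_bit _ (by omega), sk_of_le h', hb (m + 1) p]
      rw [insb_nb (fun i => b i (m + 1)) h']
      rfl
    · rw [Nat.succ_eq_add_one] at h'
      have he : Nat.beq p (m + 1) = true := by rw [Nat.beq_eq]; exact h'
      rw [he, cond_true, nb_mod _ hM,
        show code b (m + 1 + 1) = nb (fun i => b i (m + 1)) (m + 1) + code b (m + 1) * 2 ^ (m + 1)
        from rfl]
      congr 1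
      · exact nb_congr (fun i hi => by rw [sk_of_lt (by omega), h'])
      · congr 1
        exact code_congr (fun i j hi hj => by rw [sk_of_lt (by omega), sk_of_lt (by omega)])

theorem insb_add (p y t : ℕ) : insb p y t = insb p y 0 + insb p 0 t := by
  simp only [insb, Nat.zero_mod, Nat.zero_div, zero_mul, add_zero, zero_add]
  ring

theorem ins_add (p : ℕ) : ∀ m c x, ins p m c x = ins p m c 0 + ins p m 0 x := by
  intro m
  induction m with
  | zero => intro c x; simp [ins]
  | succ m ih =>
    intro c x
    rw [ins, ins, ins]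
    cases Nat.beq p (m + 1) with
    | true => simp only [cond_true, Nat.zero_mod, zero_mul, add_zero, zero_add]; ring
    | false =>
      simp only [cond_false, Nat.zero_mod, Nat.zero_div, zero_mul, add_zero, zero_add]
      rw [insb_add, ih (c / 2 ^ m) x]
      ring

theorem code5_lt (b : ℕ → ℕ → Bool) : code b 5 < 1024 := by
  have h4 := nb_lt (fun i => b i 4) 4
  have h3 := nb_lt (fun i => b i 3) 3
  have h2 := nb_lt (fun i => b i 2) 2
  have h1 := nb_lt (fun i => b i 1) 1
  have h0 := nb_lt (fun i => b i 0) 0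
  simp only [code] at *
  norm_num at *
  omega

theorem beq_mod_two (T i : ℕ) : Nat.beq ((T >>> i) % 2) 1 = T.testBit i := by
  rw [Nat.testBit_eq_decide_div_mod_eq, Nat.shiftRight_eq_div_pow, Bool.eq_iff_iff, Nat.beq_eq,
    decide_eq_true_iff]

theorem good_eq (c : ℕ) : good c = tab.testBit c := by
  unfold good trow
  rw [strict_eq, beq_mod_two, Nat.testBit_mod_two_pow, Nat.testBit_shiftRight]
  have : c % 1024 < 1024 := Nat.mod_lt _ (by norm_num)
  rw [decide_eq_true this, Bool.true_and, Nat.div_add_mod]

/-- The meaning of the check of an extension table. -/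
theorem checkE_spec {e v : ℕ} (h : allB 10 0 (checkE e v) = true) {t N : ℕ} (ht : t < 1024)
    (hN : N < 64) (hr : rem v N < 32) :
    e.testBit (64 * t + N) = !(tab.testBit (32 * t + rem v N)) := by
  have h1 := allB_spec _ _ _ h t (by norm_num; exact ht)
  unfold checkE at h1
  simp only [strict_eq, zero_add] at h1
  have h2 := allB_spec _ _ _ h1 N (by norm_num; exact hN)
  rw [zero_add, Nat.beq_eq] at h2
  have hg : ((tab >>> (32 * t)) % 4294967296).testBit (rem v N) =
      tab.testBit (32 * t + rem v N) := by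
    rw [show (4294967296 : ℕ) = 2 ^ 32 by norm_num, Nat.testBit_mod_two_pow,
      Nat.testBit_shiftRight, decide_eq_true hr, Bool.true_and]
  have hw : ((e >>> (64 * t)) % 18446744073709551616).testBit N =
      e.testBit (64 * t + N) := by
    rw [show (18446744073709551616 : ℕ) = 2 ^ 64 by norm_num, Nat.testBit_mod_two_pow,
      Nat.testBit_shiftRight, decide_eq_true hN, Bool.true_and]
  rw [← hg, ← hw, ← beq_mod_two, ← beq_mod_two]
  generalize ((tab >>> (32 * t)) % 4294967296) >>> rem v N = A at h2 ⊢
  generalize ((e >>> (64 * t)) % 18446744073709551616) >>> N = B at h2 ⊢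
  rcases Nat.mod_two_eq_zero_or_one A with hA | hA <;>
    rcases Nat.mod_two_eq_zero_or_one B with hB | hB
  · omega
  · rw [hA, hB]; rfl
  · rw [hA, hB]; rfl
  · omega

theorem sub_row_testBit {e v : ℕ} {c x N : ℕ} (hN : N < 64) (hx : rem v x < 16) :
    (sub (row e v c) v x).testBit N = e.testBit (64 * (rem v x + del v 5 c * 16) + N) := by
  unfold sub row
  rw [show (18446744073709551616 : ℕ) = 2 ^ 64 by norm_num, Nat.testBit_mod_two_pow,
    Nat.testBit_shiftRight, Nat.testBit_mod_two_pow, Nat.testBit_shiftRight,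
    decide_eq_true hN, Bool.true_and, decide_eq_true (by omega), Bool.true_and]
  congr 1
  ring

/-- Every ordered graph on seven vertices has a vertex-deleted subgraph which is not chosen. -/
theorem K_main (b : ℕ → ℕ → Bool) :
    ∃ v, v < 7 ∧ good (code (fun i j => b (sk v i) (sk v j)) 6) = false := by
  by_contra hcon
  push Not at hcon
  have hgood : ∀ v, v < 7 → tab.testBit (code (fun i j => b (sk v i) (sk v j)) 6) = true := by
    intro v hv
    have := hcon v hv
    rw [← good_eq]
    simpa using this
  -- the code of the first five vertices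
  have hc : code b 5 < 1024 := code5_lt b
  have hx : nb (fun i => b i 5) 5 < 32 := nb_lt _ 5
  have hN : nb (fun i => b i 6) 6 < 64 := nb_lt _ 6
  have h1 := allB_spec _ _ _ checkK_all (code b 5) (by norm_num; exact hc)
  unfold checkK at h1
  simp only [strict_eq, zero_add] at h1
  have h2 := allB_spec _ _ _ h1 (nb (fun i => b i 5) 5) (by norm_num; exact hx)
  rw [zero_add] at h2
  -- the deleted subgraphs
  have hcode : ∀ v, v ≤ 5 → code (fun i j => b (sk v i) (sk v j)) 6 =
      32 * code (fun i j => b (sk v i) (sk v j)) 5 + rem v (nb (fun i => b i 6) 6) := by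
    intro v hv
    rw [rem_nb _ hv]
    rw [show code (fun i j => b (sk v i) (sk v j)) 6 =
      nb (fun i => b (sk v i) (sk v 5)) 5 + code (fun i j => b (sk v i) (sk v j)) 5 * 2 ^ 5
      from rfl, sk_of_le hv]
    ring
  have hT : ∀ v, v ≤ 4 → code (fun i j => b (sk v i) (sk v j)) 5 =
      rem v (nb (fun i => b i 5) 5) + del v 5 (code b 5) * 16 := by
    intro v hv
    rw [rem_nb _ hv, del_code _ hv]
    rw [show code (fun i j => b (sk v i) (sk v j)) 5 =
      nb (fun i => b (sk v i) (sk v 4)) 4 + code (fun i j => b (sk v i) (sk v j)) 4 * 2 ^ 4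
      from rfl, sk_of_le hv]
    norm_num
  have hrem6 : ∀ v, v ≤ 5 → rem v (nb (fun i => b i 6) 6) < 32 := by
    intro v hv
    rw [rem_nb _ hv]
    exact nb_lt _ 5
  have hrem5 : ∀ v, v ≤ 4 → rem v (nb (fun i => b i 5) 5) < 16 := by
    intro v hv
    rw [rem_nb _ hv]
    exact nb_lt _ 4
  have hS0 : code b 6 = 32 * code b 5 + nb (fun i => b i 5) 5 := by
    rw [show code b 6 = nb (fun i => b i 5) 5 + code b 5 * 2 ^ 5 from rfl]
    ring
  have hg : Nat.beq ((((tab >>> (32 * code b 5)) % 4294967296) >>> nb (fun i => b i 5) 5) % 2) 1 =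
      true := by
    have h6 := hgood 6 (by norm_num)
    rw [code_congr (b' := b) (fun i j hi hj => by rw [sk_of_lt (by omega), sk_of_lt (by omega)]),
      hS0] at h6
    rw [beq_mod_two, show (4294967296 : ℕ) = 2 ^ 32 by norm_num, Nat.testBit_mod_two_pow,
      Nat.testBit_shiftRight, decide_eq_true hx, Bool.true_and, h6]
  unfold checkX at h2
  rw [hg, cond_true, Nat.beq_eq] at h2
  -- bit `N` of the left hand side is zero
  have hbit : ∀ (e v : ℕ), v ≤ 4 → allB 10 0 (checkE e v) = true →
      (sub (row e v (code b 5)) v (nb (fun i => b i 5) 5)).testBit (nb (fun i => b i 6) 6) =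
        false := by
    intro e v hv he
    rw [sub_row_testBit hN (hrem5 v hv), ← hT v hv,
      checkE_spec he (code5_lt _) hN (hrem6 v (by omega)), ← hcode v (by omega),
      hgood v (by omega)]
    rfl
  have hbit5 : ((etab5 >>> (64 * code b 5)) % 18446744073709551616).testBit
      (nb (fun i => b i 6) 6) = false := by
    rw [show (18446744073709551616 : ℕ) = 2 ^ 64 by norm_num, Nat.testBit_mod_two_pow,
      Nat.testBit_shiftRight, decide_eq_true hN, Bool.true_and,
      checkE_spec checkE_all5 hc hN (hrem6 5 (by omega))]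
    have h5 := hgood 5 (by norm_num)
    rw [hcode 5 (by omega), code_congr (b' := b) (m := 5)
      (fun i j hi hj => by rw [sk_of_lt (by omega), sk_of_lt (by omega)])] at h5
    rw [h5]
    rfl
  have h3 := congrArg (fun z => Nat.testBit z (nb (fun i => b i 6) 6)) h2
  simp only [Nat.testBit_or] at h3
  rw [hbit5, hbit _ 0 (by norm_num) checkE_all0, hbit _ 1 (by norm_num) checkE_all1,
    hbit _ 2 (by norm_num) checkE_all2, hbit _ 3 (by norm_num) checkE_all3,
    hbit _ 4 (by norm_num) checkE_all4, show (18446744073709551615 : ℕ) = 2 ^ 64 - 1 by norm_num,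
    Nat.testBit_two_pow_sub_one, decide_eq_true hN] at h3
  exact Bool.noConfusion h3

/-- The neighbourhood code of a vector. -/
def nbF {m : ℕ} (x : Fin m → Bool) : ℕ := nb (fun i => if h : i < m then x ⟨i, h⟩ else false) m

theorem cnt_spec (l : List ℕ) (b : ℕ) :
    cnt l b = ∑ x : Fin l.length → Bool,
      (if good (b + ∑ i, (x i).toNat * l.get i) = true then 1 else 0) := by
  induction l generalizing b with
  | nil =>
    rw [cnt]
    simp only [List.length_nil, Finset.univ_unique, Finset.sum_singleton, Finset.univ_eq_empty,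
      Finset.sum_empty, add_zero]
    cases good b <;> rfl
  | cons w l ih =>
    rw [cnt, strict_eq, strict_eq, ih, ih]
    change _ = ∑ x : Fin (l.length + 1) → Bool,
      (if good (b + ∑ i : Fin (l.length + 1), (x i).toNat * (w :: l).get i) = true then 1 else 0)
    rw [← (Fin.consEquiv (fun _ : Fin (l.length + 1) => Bool)).sum_comp, Fintype.sum_prod_type,
      Fintype.sum_bool, add_comm]
    congr 1
    · refine Finset.sum_congr rfl (fun x _ => ?_)
      have : b + ∑ i : Fin (l.length + 1),
          ((Fin.consEquiv (fun _ : Fin (l.length + 1) => Bool)) (true, x) i).toNat *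
            (w :: l).get i = b + w + ∑ i, (x i).toNat * l.get i := by
        rw [Fin.sum_univ_succ]
        simp [Fin.consEquiv, add_assoc]
      rw [← this]
    · refine Finset.sum_congr rfl (fun x _ => ?_)
      have : b + ∑ i : Fin (l.length + 1),
          ((Fin.consEquiv (fun _ : Fin (l.length + 1) => Bool)) (false, x) i).toNat *
            (w :: l).get i = b + ∑ i, (x i).toNat * l.get i := by
        rw [Fin.sum_univ_succ]
        simp [Fin.consEquiv]
      rw [← this]

theorem ins_zero_nbF : ∀ p : Fin 6, ∀ x : Fin 5 → Bool,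
    ins p 5 0 (nbF x) = ∑ i : Fin 5, (x i).toNat * (ws p).get i := by
  decide +kernel

/-- At each place, at least `19` of the `32` extensions of an ordered graph on five vertices are
chosen. -/
theorem C_main (p : Fin 6) {c : ℕ} (hc : c < 1024) :
    19 ≤ ∑ x : Fin 5 → Bool, (if good (ins p 5 c (nbF x)) = true then 1 else 0) := by
  have h : allB 10 0 (checkC p) = true := by
    fin_cases p
    · exact checkC_all0
    · exact checkC_all1
    · exact checkC_all2
    · exact checkC_all3
    · exact checkC_all4
    · exact checkC_all5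
  have h1 := allB_spec _ _ _ h c (by norm_num; exact hc)
  unfold checkC at h1
  rw [strict_eq, zero_add, Nat.ble_eq, cnt_spec] at h1
  have h2 : 19 ≤ ∑ x : Fin 5 → Bool,
      (if good (ins p 5 c 0 + ∑ i : Fin 5, (x i).toNat * (ws p).get i) = true then 1 else 0) := h1
  refine h2.trans (le_of_eq ?_)
  refine Finset.sum_congr rfl (fun x _ => ?_)
  rw [ins_add p 5 c (nbF x), ins_zero_nbF]

end Pool.Agent.E8helper99.Codeg
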