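import Mathlib

/-!
# An exponential moment bound for random extensions
-/

namespace Pool.Agent.E8helper99.Codeg

open Finset

/-- Adding a fixed vector modulo two. -/
def xorEquiv {ι : Type} (d : ι → Bool) : (ι → Bool) ≃ (ι → Bool) where
  toFun y := fun i => xor (d i) (y i)
  invFun y := fun i => xor (d i) (y i)
  left_inv y := by funext i; simp
  right_inv y := by funext i; simp

theorem xorEquiv_apply {ι : Type} (d y : ι → Bool) (i : ι) :
    xorEquiv d y i = xor (d i) (y i) := rfl

variable {V : Type} [Fintype V] [DecidableEq V]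

/-- A shifted uniform row restricted to five distinct places is uniform. -/
theorem sum_row (e : Fin 5 → V) (he : Function.Injective e) (c : Fin 5 → Bool)
    (F : (Fin 5 → Bool) → ℝ) :
    32 * ∑ r : V → Bool, F (fun i => xor (c i) (r (e i))) =
      2 ^ Fintype.card V * ∑ x : Fin 5 → Bool, F x := by
  have h1 : ∀ y : Fin 5 → Bool, ∑ r : V → Bool, F (fun i => xor (c i) (r (e i))) =
      ∑ r : V → Bool, F (fun i => xor (c i) (xor (r (e i)) (y i))) := by
    intro y
    rw [← (xorEquiv (Function.extend e y (fun _ => false))).sum_comp]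
    refine Finset.sum_congr rfl (fun r _ => ?_)
    congr 1
    funext i
    rw [xorEquiv_apply, he.extend_apply, Bool.xor_comm (y i)]
  have h2 : ∑ y : Fin 5 → Bool, ∑ r : V → Bool, F (fun i => xor (c i) (r (e i))) =
      32 * ∑ r : V → Bool, F (fun i => xor (c i) (r (e i))) := by
    rw [Finset.sum_const, Finset.card_univ]
    simp
  rw [← h2, Finset.sum_congr rfl (fun y _ => h1 y), Finset.sum_comm]
  have h3 : ∀ r : V → Bool, ∑ y : Fin 5 → Bool, F (fun i => xor (c i) (xor (r (e i)) (y i))) =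
      ∑ x : Fin 5 → Bool, F x := by
    intro r
    rw [← (xorEquiv (fun i => xor (c i) (r (e i)))).sum_comp F]
    refine Finset.sum_congr rfl (fun y _ => ?_)
    congr 1
    funext i
    rw [xorEquiv_apply, Bool.xor_assoc]
  rw [Finset.sum_congr rfl (fun r _ => h3 r), Finset.sum_const, Finset.card_univ]
  simp

/-- The one-row bound. -/
theorem sum_row_le (e : Fin 5 → V) (he : Function.Injective e) (c : Fin 5 → Bool)
    (F : (Fin 5 → Bool) → Bool) (hF : 19 ≤ ∑ x : Fin 5 → Bool, (if F x = true then 1 else 0))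
    {l : ℝ} (hl : l ≤ 1) :
    ∑ r : V → Bool, (if F (fun i => xor (c i) (r (e i))) = true then l else 1) ≤
      2 ^ Fintype.card V * (1 - 19 / 32 * (1 - l)) := by
  have h1 := sum_row e he c (fun x => if F x = true then l else 1)
  have h2 : ∑ x : Fin 5 → Bool, (if F x = true then l else 1 : ℝ) =
      32 - (1 - l) * ((∑ x : Fin 5 → Bool, (if F x = true then 1 else 0) : ℕ) : ℝ) := by
    push_cast
    rw [Finset.mul_sum]
    have : (32 : ℝ) = ∑ x : Fin 5 → Bool, (1 : ℝ) := by simp
    rw [this, ← Finset.sum_sub_distrib]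
    refine Finset.sum_congr rfl (fun x _ => ?_)
    split_ifs <;> simp
  have h3 : (19 : ℝ) ≤ ((∑ x : Fin 5 → Bool, (if F x = true then 1 else 0) : ℕ) : ℝ) := by
    exact_mod_cast hF
  have h4 : ∑ x : Fin 5 → Bool, (if F x = true then l else 1 : ℝ) ≤
      32 * (1 - 19 / 32 * (1 - l)) := by
    rw [h2]
    nlinarith
  have h5 : (0 : ℝ) < 2 ^ Fintype.card V := by positivity
  have h6 : 32 * ∑ r : V → Bool, (if F (fun i => xor (c i) (r (e i))) = true then l else 1) ≤
      32 * (2 ^ Fintype.card V * (1 - 19 / 32 * (1 - l))) := by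
    rw [h1]
    nlinarith
  linarith

/-- The exponential moment bound. -/
theorem moment_le (T : Finset V) (e : Fin 5 → V) (he : Function.Injective e)
    (heT : ∀ i, e i ∈ T) (F : (V → V → Bool) → V → (Fin 5 → Bool) → Bool)
    (hF : ∀ ω ω' w x, (∀ t ∈ T, ω t = ω' t) → F ω w x = F ω' w x)
    (hcnt : ∀ ω w, w ∉ T → 19 ≤ ∑ x : Fin 5 → Bool, (if F ω w x = true then 1 else 0))
    {l : ℝ} (hl0 : 0 < l) (hl : l ≤ 1) :
    ∑ ω : V → V → Bool, l ^ (univ.filter (fun w => w ∉ T ∧
      F ω w (fun i => xor (ω (e i) w) (ω w (e i))) = true)).card ≤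
      Fintype.card (V → V → Bool) * (1 - 19 / 32 * (1 - l)) ^ (Fintype.card V - T.card) := by
  set q : ℝ := 1 - 19 / 32 * (1 - l) with hq
  have hq0 : 0 ≤ q := by rw [hq]; linarith
  -- the power as a product
  have hprod : ∀ ω : V → V → Bool, l ^ (univ.filter (fun w => w ∉ T ∧
      F ω w (fun i => xor (ω (e i) w) (ω w (e i))) = true)).card =
      ∏ w : {w // ¬ w ∈ T},
        (if F ω w (fun i => xor (ω (e i) w) (ω w (e i))) = true then l else 1) := by
    intro ω
    rw [Finset.prod_ite, Finset.prod_const_one, mul_one, Finset.prod_const]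
    congr 1
    rw [← Finset.card_map (Function.Embedding.subtype (fun w => ¬ w ∈ T))]
    congr 1
    ext w
    simp only [mem_filter, mem_univ, true_and, mem_map, Function.Embedding.coe_subtype,
      Subtype.exists, exists_and_right, exists_eq_right]
    constructor
    · rintro ⟨h1, h2⟩
      exact ⟨h1, h2⟩
    · rintro ⟨h1, h2⟩
      exact ⟨h1, h2⟩
  rw [Finset.sum_congr rfl (fun ω _ => hprod ω)]
  set E := Equiv.piEquivPiSubtypeProd (fun v => v ∈ T) (fun _ : V => (V → Bool)) with hE
  rw [← E.symm.sum_comp, Fintype.sum_prod_type]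
  have hrow : ∀ (τ : {v // v ∈ T} → V → Bool) (σ : {v // ¬ v ∈ T} → V → Bool),
      ∀ v (hv : v ∈ T), E.symm (τ, σ) v = τ ⟨v, hv⟩ := by
    intro τ σ v hv
    rw [hE, Equiv.piEquivPiSubtypeProd_symm_apply]
    simp [hv]
  have hrow' : ∀ (τ : {v // v ∈ T} → V → Bool) (σ : {v // ¬ v ∈ T} → V → Bool),
      ∀ v (hv : ¬ v ∈ T), E.symm (τ, σ) v = σ ⟨v, hv⟩ := by
    intro τ σ v hv
    rw [hE, Equiv.piEquivPiSubtypeProd_symm_apply]
    simp [hv]
  have hinner : ∀ τ : {v // v ∈ T} → V → Bool,
      ∑ σ : {v // ¬ v ∈ T} → V → Bool, ∏ w : {w // ¬ w ∈ T},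
        (if F (E.symm (τ, σ)) w (fun i => xor (E.symm (τ, σ) (e i) w)
          (E.symm (τ, σ) w (e i))) = true then l else 1) ≤
      (2 ^ Fintype.card V * q) ^ (Fintype.card V - T.card) := by
    intro τ
    have h1 : ∀ σ : {v // ¬ v ∈ T} → V → Bool, ∏ w : {w // ¬ w ∈ T},
        (if F (E.symm (τ, σ)) w (fun i => xor (E.symm (τ, σ) (e i) w)
          (E.symm (τ, σ) w (e i))) = true then l else 1) =
        ∏ w : {w // ¬ w ∈ T}, (fun (w : {w // ¬ w ∈ T}) (r : V → Bool) =>
          (if F (E.symm (τ, fun _ _ => false)) w (fun i => xor (τ ⟨e i, heT i⟩ w)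
          (r (e i))) = true then l else 1)) w (σ w) := by
      intro σ
      refine Finset.prod_congr rfl (fun w _ => ?_)
      have h2 : (fun i => xor (E.symm (τ, σ) (e i) w) (E.symm (τ, σ) w (e i))) =
          (fun i => xor (τ ⟨e i, heT i⟩ w) (σ w (e i))) := by
        funext i
        rw [hrow τ σ _ (heT i), hrow' τ σ _ w.2]
      have h3 : F (E.symm (τ, σ)) w = F (E.symm (τ, fun _ _ => false)) w := by
        funext x
        apply hF
        intro t ht
        rw [hrow τ _ t ht, hrow τ _ t ht]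
      rw [h2, h3]
    rw [Finset.sum_congr rfl (fun σ _ => h1 σ)]
    have h4 := Finset.prod_univ_sum (fun _ : {w // ¬ w ∈ T} => (univ : Finset (V → Bool)))
      (fun (w : {w // ¬ w ∈ T}) (r : V → Bool) =>
          (if F (E.symm (τ, fun _ _ => false)) w (fun i => xor (τ ⟨e i, heT i⟩ w)
          (r (e i))) = true then l else 1))
    rw [Fintype.piFinset_univ] at h4
    rw [← h4]
    have h5 : (2 ^ Fintype.card V * q) ^ (Fintype.card V - T.card) =
        ∏ w : {w // ¬ w ∈ T}, (2 ^ Fintype.card V * q) := by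
      rw [Finset.prod_const, Finset.card_univ, Fintype.card_subtype_compl, Fintype.card_coe]
    rw [h5]
    refine Finset.prod_le_prod (fun w _ => Finset.sum_nonneg (fun r _ => ?_)) (fun w _ => ?_)
    · split_ifs
      · exact hl0.le
      · exact zero_le_one
    · exact sum_row_le e he _ (F (E.symm (τ, fun _ _ => false)) w) (hcnt _ _ w.2) hl
  refine (Finset.sum_le_sum (fun τ _ => hinner τ)).trans (le_of_eq ?_)
  rw [Finset.sum_const, Finset.card_univ, nsmul_eq_mul, mul_pow, ← mul_assoc]
  congr 1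
  rw [Fintype.card_fun, Fintype.card_fun, Fintype.card_fun, Fintype.card_coe, Fintype.card_bool]
  push_cast
  have := Finset.card_le_univ T
  rw [← pow_add, Nat.add_sub_cancel' this]
  simp

end Pool.Agent.E8helper99.Codeg
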