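import Mathlib
import Pool.Agent.E8helper99.CodegCode
import Pool.Agent.E8helper99.CodegProb

/-!
# The random 6-graph
-/

namespace Pool.Agent.E8helper99.Codeg

open Finset

/-- The relation `a` pulled back along `e`, on natural numbers. -/
def pull {V : Type} {m : ℕ} (e : Fin m → V) (a : V → V → Bool) : ℕ → ℕ → Bool :=
  fun i j => if h : i < m ∧ j < m then a (e ⟨i, h.1⟩) (e ⟨j, h.2⟩) else false

theorem pull_symm {V : Type} {m : ℕ} (e : Fin m → V) (a : V → V → Bool)
    (ha : ∀ x y, a x y = a y x) (i j : ℕ) : pull e a i j = pull e a j i := by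
  unfold pull
  by_cases h : i < m ∧ j < m
  · rw [dif_pos h, dif_pos ⟨h.2, h.1⟩, ha]
  · rw [dif_neg h, dif_neg (fun h' => h ⟨h'.2, h'.1⟩)]

theorem sk_lt {v i m : ℕ} (hi : i < m) : sk v i < m + 1 := by
  unfold sk; split_ifs <;> omega

theorem succAbove_eq_sk {m : ℕ} (v : Fin (m + 1)) (i : Fin m) :
    v.succAbove i = ⟨sk v i, sk_lt i.2⟩ := by
  apply Fin.ext
  unfold sk Fin.succAbove
  by_cases h : i.castSucc < v
  · rw [if_pos h]
    have h' : (i : ℕ) < v := h
    simp [h']
  · rw [if_neg h]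
    have h' : ¬ (i : ℕ) < v := h
    simp [h']

theorem pull_succAbove {V : Type} {m : ℕ} (e : Fin (m + 1) → V) (a : V → V → Bool)
    (v : Fin (m + 1)) {i j : ℕ} (hi : i < m) (hj : j < m) :
    pull (fun i => e (v.succAbove i)) a i j = pull e a (sk v i) (sk v j) := by
  unfold pull
  rw [dif_pos ⟨hi, hj⟩, dif_pos ⟨sk_lt hi, sk_lt hj⟩]
  dsimp only
  rw [succAbove_eq_sk, succAbove_eq_sk]

variable {n : ℕ}

/-- Erasing an element from a set skips it in the increasing enumeration. -/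
theorem orderEmb_erase {m : ℕ} (S : Finset (Fin n)) (hS : S.card = m + 1) (v : Fin (m + 1))
    (h : (S.erase (S.orderEmbOfFin hS v)).card = m) :
    (fun i => S.orderEmbOfFin hS (v.succAbove i)) =
      ((S.erase (S.orderEmbOfFin hS v)).orderEmbOfFin h : Fin m → Fin n) := by
  apply Finset.orderEmbOfFin_unique
  · intro i
    rw [Finset.mem_erase]
    refine ⟨fun h' => ?_, Finset.orderEmbOfFin_mem _ _ _⟩
    exact Fin.succAbove_ne v i ((S.orderEmbOfFin hS).injective h')
  · exact (S.orderEmbOfFin hS).strictMono.comp (Fin.strictMono_succAbove v)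

/-- The edges of the 6-graph defined by the graph `a`. -/
def IsEdge (a : Fin n → Fin n → Bool) (S : Finset (Fin n)) : Prop :=
  ∃ h : S.card = 6, good (code (pull (S.orderEmbOfFin h) a) 6) = true

/-- The 6-graph has no complete sub-6-graph on seven vertices. -/
theorem exists_nonedge (a : Fin n → Fin n → Bool) (U : Finset (Fin n)) (hU : U.card = 7) :
    ∃ S, S ⊆ U ∧ S.card = 6 ∧ ¬ IsEdge a S := by
  obtain ⟨v, hv, hbad⟩ := K_main (pull (U.orderEmbOfFin hU) a)
  set w := U.orderEmbOfFin hU ⟨v, hv⟩ with hw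
  have hwU : w ∈ U := Finset.orderEmbOfFin_mem _ _ _
  have hcard : (U.erase w).card = 6 := by rw [Finset.card_erase_of_mem hwU, hU]
  refine ⟨U.erase w, Finset.erase_subset _ _, hcard, ?_⟩
  rintro ⟨h, hg⟩
  have h1 := orderEmb_erase U hU ⟨v, hv⟩ h
  rw [← h1] at hg
  rw [code_congr (b' := fun i j => pull (U.orderEmbOfFin hU) a (sk v i) (sk v j))
    (fun i j hi hj => pull_succAbove _ a ⟨v, hv⟩ (by omega) hj)] at hg
  rw [hg] at hbad
  exact Bool.noConfusion hbad

/-- Membership of `insert w T` in terms of the neighbourhood of `w` in `T`. -/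
theorem isEdge_insert (T : Finset (Fin n)) (hT : T.card = 5) (w : Fin n) :
    ∃ p : Fin 6, w ∉ T → ∀ a : Fin n → Fin n → Bool, (∀ x y, a x y = a y x) →
      (IsEdge a (insert w T) ↔ good (ins p 5 (code (pull (T.orderEmbOfFin hT) a) 5)
        (nbF (fun i => a (T.orderEmbOfFin hT i) w))) = true) := by
  by_cases hw : w ∈ T
  · exact ⟨0, fun h => absurd hw h⟩
  have hS : (insert w T).card = 6 := by rw [Finset.card_insert_of_notMem hw, hT]
  have hmem : w ∈ Set.range ((insert w T).orderEmbOfFin hS) := by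
    rw [Finset.range_orderEmbOfFin]
    simp
  obtain ⟨p, hp⟩ := hmem
  refine ⟨p, fun _ a ha => ?_⟩
  have herase : (insert w T).erase ((insert w T).orderEmbOfFin hS p) = T := by
    rw [hp, Finset.erase_insert hw]
  have hcard : ((insert w T).erase ((insert w T).orderEmbOfFin hS p)).card = 5 := by
    rw [herase, hT]
  have h1 := orderEmb_erase (insert w T) hS p hcard
  have h2 : (((insert w T).erase ((insert w T).orderEmbOfFin hS p)).orderEmbOfFin hcard :
      Fin 5 → Fin n) = T.orderEmbOfFin hT := by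
    congr 1
    · simp only [herase]
  rw [h2] at h1
  have h3 := ins_code (pull ((insert w T).orderEmbOfFin hS) a) (pull_symm _ a ha) (m := 5)
    (p := p) (M := 5) (by omega) le_rfl
  have h4 : code (fun i j => pull ((insert w T).orderEmbOfFin hS) a (sk p i) (sk p j)) 5 =
      code (pull (T.orderEmbOfFin hT) a) 5 := by
    rw [← h1]
    exact code_congr (fun i j hi hj => (pull_succAbove _ a p (by omega) hj).symm)
  have h5 : nb (fun i => pull ((insert w T).orderEmbOfFin hS) a (sk p i) p) 5 =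
      nbF (fun i => a (T.orderEmbOfFin hT i) w) := by
    unfold nbF
    refine nb_congr (fun i hi => ?_)
    rw [dif_pos hi, ← h1]
    unfold pull
    rw [dif_pos ⟨sk_lt hi, p.2⟩]
    dsimp only
    rw [succAbove_eq_sk]
    simp only [Fin.eta, hp]
  rw [h4, h5] at h3
  rw [h3]
  constructor
  · rintro ⟨h, hg⟩
    exact hg
  · intro hg
    exact ⟨hS, hg⟩

/-- The random graph. -/
def adj (ω : Fin n → Fin n → Bool) : Fin n → Fin n → Bool := fun i j => xor (ω i j) (ω j i)

theorem adj_symm (ω : Fin n → Fin n → Bool) (i j : Fin n) : adj ω i j = adj ω j i :=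
  Bool.xor_comm _ _

open Classical in
/-- The codegree of `T`. -/
noncomputable def cdeg (ω : Fin n → Fin n → Bool) (T : Finset (Fin n)) : ℕ :=
  (univ.filter (fun w => w ∉ T ∧ IsEdge (adj ω) (insert w T))).card

theorem moment_cdeg (T : Finset (Fin n)) (hT : T.card = 5) {l : ℝ} (hl0 : 0 < l) (hl : l ≤ 1) :
    ∑ ω : Fin n → Fin n → Bool, l ^ cdeg ω T ≤
      Fintype.card (Fin n → Fin n → Bool) * (1 - 19 / 32 * (1 - l)) ^ (n - 5) := by
  choose p hp using isEdge_insert T hT
  have h := moment_le T (T.orderEmbOfFin hT) (T.orderEmbOfFin hT).injective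
    (fun i => Finset.orderEmbOfFin_mem _ _ _)
    (fun ω w x => good (ins (p w) 5 (code (pull (T.orderEmbOfFin hT) (adj ω)) 5) (nbF x)))
    (by
      intro ω ω' w x hω
      have : code (pull (T.orderEmbOfFin hT) (adj ω)) 5 =
          code (pull (T.orderEmbOfFin hT) (adj ω')) 5 := by
        refine code_congr (fun i j hi hj => ?_)
        unfold pull adj
        rw [dif_pos ⟨by omega, hj⟩, dif_pos ⟨by omega, hj⟩,
          hω _ (Finset.orderEmbOfFin_mem _ _ _), hω _ (Finset.orderEmbOfFin_mem _ _ _)]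
      rw [this])
    (by
      intro ω w _
      exact C_main (p w) (code5_lt _))
    hl0 hl
  rw [Fintype.card_fin, hT] at h
  refine le_trans (le_of_eq ?_) h
  refine Finset.sum_congr rfl (fun ω _ => ?_)
  congr 1
  unfold cdeg
  congr 1
  ext w
  simp only [mem_filter, mem_univ, true_and]
  constructor
  · rintro ⟨h1, h2⟩
    exact ⟨h1, (hp w h1 (adj ω) (adj_symm ω)).1 h2⟩
  · rintro ⟨h1, h2⟩
    exact ⟨h1, (hp w h1 (adj ω) (adj_symm ω)).2 h2⟩

/-- If the union bound applies then some graph gives large codegrees. -/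
theorem exists_omega (n : ℕ) {s l : ℝ} (hl0 : 0 < l) (hl1 : l ≤ 1)
    (h : (n : ℝ) ^ 5 * (1 - 19 / 32 * (1 - l)) ^ (n - 5) < l ^ (s * n)) :
    ∃ ω : Fin n → Fin n → Bool, ∀ T : Finset (Fin n), T.card = 5 → s * n < cdeg ω T := by
  by_contra hcon
  push Not at hcon
  have hq0 : (0 : ℝ) ≤ (1 - 19 / 32 * (1 - l)) ^ (n - 5) := by
    apply pow_nonneg
    linarith
  have h1 : ∀ ω : Fin n → Fin n → Bool,
      l ^ (s * n) ≤ ∑ T ∈ powersetCard 5 (univ : Finset (Fin n)), l ^ cdeg ω T := by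
    intro ω
    obtain ⟨T, hT, hTs⟩ := hcon ω
    have h2 : l ^ (s * n) ≤ l ^ cdeg ω T := by
      rw [← Real.rpow_natCast]
      exact Real.rpow_le_rpow_of_exponent_ge hl0 hl1 hTs
    refine h2.trans ?_
    refine Finset.single_le_sum (f := fun T => l ^ cdeg ω T) (fun T _ => by positivity) ?_
    rw [mem_powersetCard]
    exact ⟨subset_univ _, hT⟩
  have h2 : ∑ ω : Fin n → Fin n → Bool, l ^ (s * n) ≤
      ∑ ω : Fin n → Fin n → Bool,
        ∑ T ∈ powersetCard 5 (univ : Finset (Fin n)), l ^ cdeg ω T :=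
    Finset.sum_le_sum (fun ω _ => h1 ω)
  rw [Finset.sum_comm, Finset.sum_const, card_univ, nsmul_eq_mul] at h2
  have h3 : ∑ T ∈ powersetCard 5 (univ : Finset (Fin n)),
      ∑ ω : Fin n → Fin n → Bool, l ^ cdeg ω T ≤
      ∑ T ∈ powersetCard 5 (univ : Finset (Fin n)),
        (Fintype.card (Fin n → Fin n → Bool) * (1 - 19 / 32 * (1 - l)) ^ (n - 5) : ℝ) := by
    refine Finset.sum_le_sum (fun T hT => ?_)
    rw [mem_powersetCard] at hT
    exact moment_cdeg T hT.2 hl0 hl1
  rw [Finset.sum_const, card_powersetCard, card_univ, Fintype.card_fin, nsmul_eq_mul] at h3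
  have h4 : ((n.choose 5 : ℕ) : ℝ) ≤ (n : ℝ) ^ 5 := by
    exact_mod_cast Nat.choose_le_pow n 5
  have hpos : (0 : ℝ) < Fintype.card (Fin n → Fin n → Bool) := by
    exact_mod_cast Fintype.card_pos
  have h5 := h2.trans h3
  have h6 : ((n.choose 5 : ℕ) : ℝ) *
      (Fintype.card (Fin n → Fin n → Bool) * (1 - 19 / 32 * (1 - l)) ^ (n - 5)) ≤
      (n : ℝ) ^ 5 *
      (Fintype.card (Fin n → Fin n → Bool) * (1 - 19 / 32 * (1 - l)) ^ (n - 5)) :=
    mul_le_mul_of_nonneg_right h4 (by positivity)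
  have h7 : (Fintype.card (Fin n → Fin n → Bool) : ℝ) * l ^ (s * n) <
      (Fintype.card (Fin n → Fin n → Bool) : ℝ) * l ^ (s * n) := by
    calc (Fintype.card (Fin n → Fin n → Bool) : ℝ) * l ^ (s * n)
        ≤ (n : ℝ) ^ 5 *
      (Fintype.card (Fin n → Fin n → Bool) * (1 - 19 / 32 * (1 - l)) ^ (n - 5)) := h5.trans h6
      _ = (Fintype.card (Fin n → Fin n → Bool) : ℝ) *
        ((n : ℝ) ^ 5 * (1 - 19 / 32 * (1 - l)) ^ (n - 5)) := by ring
      _ < _ := mul_lt_mul_of_pos_left h hpos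
  exact lt_irrefl _ h7

/-- The union bound applies for all large `n`. -/
theorem eventually_bound {s : ℝ} (hs : s < 19 / 32) :
    ∃ l : ℝ, 0 < l ∧ l ≤ 1 ∧ ∀ᶠ n : ℕ in Filter.atTop,
      (n : ℝ) ^ 5 * (1 - 19 / 32 * (1 - l)) ^ (n - 5) < l ^ (s * n) := by
  set θ : ℝ := 19 / 32 - s with hθ
  have hθ0 : 0 < θ := by rw [hθ]; linarith
  set κ : ℝ := 19 / 32 * (θ / (1 + θ)) with hκ
  have hκ0 : 0 < κ := by rw [hκ]; positivity
  set c : ℝ := κ - θ * s with hc
  have hc0 : 0 < c := by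
    have h1 : s * (1 + θ) < 19 / 32 := by rw [hθ]; nlinarith
    have h2 : s < 19 / 32 / (1 + θ) := by rw [lt_div_iff₀ (by positivity)]; exact h1
    have h3 : θ * s < θ * (19 / 32 / (1 + θ)) := mul_lt_mul_of_pos_left h2 hθ0
    have h4 : κ = θ * (19 / 32 / (1 + θ)) := by rw [hκ]; ring
    rw [hc, h4]
    linarith
  refine ⟨Real.exp (-θ), Real.exp_pos _, Real.exp_le_one_iff.2 (by linarith), ?_⟩
  have hl : θ / (1 + θ) ≤ 1 - Real.exp (-θ) := by
    have h1 : Real.exp (-θ) ≤ 1 / (1 + θ) := by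
      rw [Real.exp_neg, ← one_div]
      apply one_div_le_one_div_of_le (by positivity)
      linarith [Real.add_one_le_exp θ]
    have h2 : θ / (1 + θ) = 1 - 1 / (1 + θ) := by field_simp; ring
    rw [h2]
    linarith
  have hq : 1 - 19 / 32 * (1 - Real.exp (-θ)) ≤ Real.exp (-κ) := by
    have h1 := Real.add_one_le_exp (-κ)
    have h2 : κ ≤ 19 / 32 * (1 - Real.exp (-θ)) := by
      rw [hκ]
      exact mul_le_mul_of_nonneg_left hl (by norm_num)
    linarith
  have hq0 : 0 ≤ 1 - 19 / 32 * (1 - Real.exp (-θ)) := by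
    have := Real.exp_pos (-θ)
    linarith
  have hlim := tendsto_pow_const_mul_const_pow_of_abs_lt_one 5 (r := Real.exp (-c))
    (by rw [abs_of_pos (Real.exp_pos _)]; exact Real.exp_lt_one_iff.2 (by linarith))
  have hev := hlim.eventually (gt_mem_nhds (Real.exp_pos (-(5 * κ))))
  filter_upwards [hev, Filter.eventually_ge_atTop 5] with n hn hn5
  have h1 : (1 - 19 / 32 * (1 - Real.exp (-θ))) ^ (n - 5) ≤ Real.exp (-κ) ^ (n - 5) :=
    pow_le_pow_left₀ hq0 hq _
  have h2 : Real.exp (-κ) ^ (n - 5) = Real.exp (5 * κ) * Real.exp (-κ * n) := by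
    rw [← Real.exp_nat_mul, ← Real.exp_add, Nat.cast_sub hn5]
    congr 1
    push_cast
    ring
  have h3 : Real.exp (-θ) ^ (s * n) = Real.exp (c * n) * Real.exp (-κ * n) := by
    rw [← Real.exp_mul, ← Real.exp_add, hc]
    congr 1
    ring
  have h4 : Real.exp (-c) ^ n = Real.exp (-(c * n)) := by
    rw [← Real.exp_nat_mul]
    congr 1
    ring
  rw [h4] at hn
  have h5 : (n : ℝ) ^ 5 * Real.exp (5 * κ) < Real.exp (c * n) := by
    have h6 := mul_lt_mul_of_pos_right hn
      (mul_pos (Real.exp_pos (5 * κ)) (Real.exp_pos (c * n)))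
    have h7 : (n : ℝ) ^ 5 * Real.exp (-(c * n)) * (Real.exp (5 * κ) * Real.exp (c * n)) =
        (n : ℝ) ^ 5 * Real.exp (5 * κ) := by
      have : Real.exp (-(c * n)) * Real.exp (c * n) = 1 := by
        rw [← Real.exp_add]; simp
      calc _ = (n : ℝ) ^ 5 * Real.exp (5 * κ) * (Real.exp (-(c * n)) * Real.exp (c * n)) := by
            ring
        _ = _ := by rw [this, mul_one]
    have h8 : Real.exp (-(5 * κ)) * (Real.exp (5 * κ) * Real.exp (c * n)) =
        Real.exp (c * n) := by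
      rw [← mul_assoc, ← Real.exp_add]
      simp
    rwa [h7, h8] at h6
  calc (n : ℝ) ^ 5 * (1 - 19 / 32 * (1 - Real.exp (-θ))) ^ (n - 5)
      ≤ (n : ℝ) ^ 5 * (Real.exp (5 * κ) * Real.exp (-κ * n)) := by
        rw [← h2]
        exact mul_le_mul_of_nonneg_left h1 (by positivity)
    _ = (n : ℝ) ^ 5 * Real.exp (5 * κ) * Real.exp (-κ * n) := by ring
    _ < Real.exp (c * n) * Real.exp (-κ * n) := mul_lt_mul_of_pos_right h5 (Real.exp_pos _)
    _ = _ := h3.symm

/-- For every `s < 19 / 32` and every large `n` there is a graph on `n` vertices whose 6-graph has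
all codegrees larger than `s * n`. -/
theorem exists_large_codegree {s : ℝ} (hs : s < 19 / 32) :
    ∀ᶠ n : ℕ in Filter.atTop, ∃ ω : Fin n → Fin n → Bool,
      ∀ T : Finset (Fin n), T.card = 5 → s * n < cdeg ω T := by
  obtain ⟨l, hl0, hl1, h⟩ := eventually_bound hs
  filter_upwards [h] with n hn
  exact exists_omega n hl0 hl1 hn

end Pool.Agent.E8helper99.Codeg
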